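import Mathlib
import Pool.Agent.J6H28.PL.Fin
set_option autoImplicit false

/-!
# The extension conjecture for the paraboloid in `ℝ³`, rough in the angle

`ext U f ξ = ∫_U e^{-i Φ(x)·ξ} f(x) dx`, `Φ(x) = (x_1, x_2, x_1² + x_2²)`. The conjecture asks for
`‖ext U f‖_q ≤ C ‖f‖_q` for every `q > 3`. For every `q > 3`, with a constant that depends only on
`q`, for all centres `p ∈ ℝ²` and all `U` in the closed unit disc about `p`:

* A. `‖ext U f‖_q ≤ C ‖W‖_q` whenever `W(x)` bounds `|f(p+x)|` plus the total variation of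
  `s ↦ f(p + s x)` on `[1, 2]`.
* B. `‖ext U f‖_q ≤ C ‖f‖_q`, the conjectured inequality, for all `f` which on every ray from `p`
  are a complex constant times a nonincreasing function; the constant and the function are
  arbitrary measurable functions of the direction. In particular this holds for the indicator
  function of every measurable star-shaped set, times every measurable function of the direction.
* C. `‖ext U f‖_q ≤ C (‖f‖_q + ‖(x - p)·∇f‖_q)`: one radial derivative and no regularity in the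
  angle.
-/

namespace Pool.Agent.Results.MP_5ab805_an.RadialVariation

open MeasureTheory Set Metric Complex
open scoped ENNReal NNReal RealInnerProductSpace

abbrev E (n : ℕ) := EuclideanSpace ℝ (Fin n)

/-- the paraboloid `x ↦ (x_1, x_2, x_1^2 + x_2^2)` -/
noncomputable def Phi (x : E 2) : E 3 := !₂[x 0, x 1, x 0 ^ 2 + x 1 ^ 2]

/-- the Fourier extension operator of the paraboloid over `U` -/
noncomputable def ext (U : Set (E 2)) (f : E 2 → ℂ) (ξ : E 3) : ℂ :=
  ∫ x in U, Complex.exp (-((⟪Phi x, ξ⟫ : ℝ) : ℂ) * I) * f x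

/-- A. The estimate by the variation along the rays from `p`. -/
def Variation : Prop :=
  ∀ q : ℝ, 3 < q → ∃ C : ℝ≥0, ∀ (U : Set (E 2)) (p : E 2) (f : E 2 → ℂ) (W : E 2 → ℝ≥0∞),
    U ⊆ closedBall p 1 → Measurable f → (∀ x ∉ U, f x = 0) → Measurable W →
    (∀ x, ‖f (p + x)‖ₑ + eVariationOn (fun s : ℝ => f (p + s • x)) (Icc 1 2) ≤ W x) →
    eLpNorm (ext U f) (ENNReal.ofReal q) volume ≤ C * (∫⁻ x, W x ^ q) ^ (1 / q)

/-- B. The conjectured inequality for functions nonincreasing along the rays from `p`. -/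
def Star : Prop :=
  ∀ q : ℝ, 3 < q → ∃ C : ℝ≥0, ∀ (U : Set (E 2)) (p : E 2) (f : E 2 → ℂ),
    MeasurableSet U → U ⊆ closedBall p 1 → Measurable f → (∀ x ∉ U, f x = 0) →
    (∀ (x : E 2) (s : ℝ), 1 ≤ s → ∃ a ∈ Icc (0 : ℝ) 1, f (p + s • x) = a • f (p + x)) →
    eLpNorm (ext U f) (ENNReal.ofReal q) volume ≤
      C * eLpNorm f (ENNReal.ofReal q) (volume.restrict U)

/-- C. The estimate by one radial derivative: `g x` is the derivative of `s ↦ f (p + s x)` at
`s = 1`, that is `x·∇f(p + x)`. -/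
def Derivative : Prop :=
  ∀ q : ℝ, 3 < q → ∃ C : ℝ≥0, ∀ (U : Set (E 2)) (p : E 2) (f g : E 2 → ℂ),
    U ⊆ closedBall p 1 → Measurable f → Measurable g → (∀ x ∉ U, f x = 0) →
    (∀ x : E 2, x ≠ 0 → HasDerivAt (fun s : ℝ => f (p + s • x)) (g x) 1) →
    eLpNorm (ext U f) (ENNReal.ofReal q) volume ≤
      C * (eLpNorm f (ENNReal.ofReal q) volume + eLpNorm g (ENNReal.ofReal q) volume)

lemma ext_eq (U : Set (E 2)) (f : E 2 → ℂ) (h : ∀ x ∉ U, f x = 0) :
    ext U f = Pool.Agent.J6H28.PL.ex f := by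
  funext ξ
  unfold ext Pool.Agent.J6H28.PL.ex
  rw [setIntegral_eq_integral_of_forall_compl_eq_zero]
  · rfl
  · intro x hx
    rw [h x hx, mul_zero]

lemma norm_eq {α : Type*} [MeasurableSpace α] (μ : Measure α) (q : ℝ) (hq : 0 < q) (g : α → ℂ) :
    eLpNorm g (ENNReal.ofReal q) μ = (∫⁻ x, ‖g x‖ₑ ^ q ∂μ) ^ (1 / q) := by
  rw [eLpNorm_eq_lintegral_rpow_enorm_toReal, ENNReal.toReal_ofReal hq.le]
  · rw [Ne, ENNReal.ofReal_eq_zero, not_le]
    exact hq
  · exact ENNReal.ofReal_ne_top

/-- **Theorem.** The extension estimates for the paraboloid in `ℝ³`, rough in the angle. -/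
theorem result : Variation ∧ Star ∧ Derivative := by
  refine ⟨?_, ?_, ?_⟩
  · intro q hq
    have hq0 : 0 < q := by linarith
    obtain ⟨C, hC⟩ := Pool.Agent.J6H28.PL.finA q hq
    refine ⟨C ^ (1 / q), ?_⟩
    intro U p f W hU hf hfU hW hb
    have h1 := hC p f W hf hW (by
      intro x hx
      have h2 : x ∈ U := by
        by_contra hcon
        exact hx (hfU x hcon)
      have h3 := hU h2
      rwa [mem_closedBall, dist_eq_norm] at h3) hb
    rw [ext_eq U f hfU, norm_eq _ q hq0, ENNReal.coe_rpow_of_nonneg _ (by positivity),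
      ← ENNReal.mul_rpow_of_nonneg _ _ (by positivity)]
    exact ENNReal.rpow_le_rpow h1 (by positivity)
  · intro q hq
    have hq0 : 0 < q := by linarith
    obtain ⟨C, hC⟩ := Pool.Agent.J6H28.PL.finB q hq
    refine ⟨C ^ (1 / q), ?_⟩
    intro U p f hUm hU hf hfU hs
    have h1 := hC p f hf (by
      intro x hx
      have h2 : x ∈ U := by
        by_contra hcon
        exact hx (hfU x hcon)
      have h3 := hU h2
      rwa [mem_closedBall, dist_eq_norm] at h3) (by
      intro x s hs1
      obtain ⟨a, ⟨ha0, ha1⟩, ha⟩ := hs x s hs1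
      exact ⟨a, ha0, ha1, ha⟩)
    have h4 : ∫⁻ x in U, ‖f x‖ₑ ^ q = ∫⁻ x, ‖f x‖ₑ ^ q := by
      rw [← lintegral_indicator hUm]
      refine lintegral_congr fun x => ?_
      by_cases hx : x ∈ U
      · rw [indicator_of_mem hx]
      · rw [indicator_of_notMem hx, hfU x hx, enorm_zero, ENNReal.zero_rpow_of_pos hq0]
    rw [ext_eq U f hfU, norm_eq _ q hq0, norm_eq _ q hq0, h4,
      ENNReal.coe_rpow_of_nonneg _ (by positivity),
      ← ENNReal.mul_rpow_of_nonneg _ _ (by positivity)]
    exact ENNReal.rpow_le_rpow h1 (by positivity)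
  · intro q hq
    have hq0 : 0 < q := by linarith
    obtain ⟨C, hC⟩ := Pool.Agent.J6H28.PL.finC q hq
    refine ⟨C ^ (1 / q), ?_⟩
    intro U p f g hU hf hg hfU hd
    have h1 := hC p f g hf hg (by
      intro x hx
      have h2 : x ∈ U := by
        by_contra hcon
        exact hx (hfU x hcon)
      have h3 := hU h2
      rwa [mem_closedBall, dist_eq_norm] at h3) hd
    rw [ext_eq U f hfU, norm_eq _ q hq0, norm_eq _ q hq0, norm_eq _ q hq0]
    refine (ENNReal.rpow_le_rpow h1 (z := 1 / q) (by positivity)).trans ?_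
    rw [ENNReal.mul_rpow_of_nonneg _ _ (by positivity), ENNReal.coe_rpow_of_nonneg _ (by positivity)]
    gcongr
    apply ENNReal.rpow_add_le_add_rpow
    · positivity
    · rw [div_le_one hq0]
      linarith

end Pool.Agent.Results.MP_5ab805_an.RadialVariation
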