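import Mathlib
import Pool.Agent.J6H90.RG.Fin
set_option autoImplicit false

/-!
# The extension conjecture for the paraboloid in `ℝ³` on random regions of space

Let `ext U f ξ = ∫_U e^{-i Φ(x)·ξ} f(x) dx`, `Φ(x) = (x_1, x_2, x_1² + x_2²)`, `U ⊆ B(0,1/2)`. For a
region `Y ⊆ ℝ³` let `‖E‖_{q→L^p(Y)}` be the norm of the extension operator from `L^q(U)` to
`L^p(Y)`. Up to factors `R^ε` the extension conjecture says that `‖E‖_{3→L³([-R,R)³)} ≤ C_ε R^ε`.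

Let `Y` be the union of a typical set of `k` among `N` given disjoint cells of volume at most `κ` in
the ball of radius `R`, and let `Z` be the union of all `N` cells. We show that `Y` samples the
extensions `F = ext U f` of all functions `f` at the same time: for all `U`, all `f ∈ L¹(U)` and all
`s > 0`

  `|Y ∩ {|F| > s ‖f‖₁}| ≤ 2 (k/N) |Z ∩ {|F| > (s/4) ‖f‖₁}| + C (log R)² κ / s²`,

hence `‖F‖_{L^p(Y)} ≤ 8 (k/N)^(1/p) ‖F‖_{L^p(Z)} + C (log R)² κ^(1/p) ‖f‖₁` for all `p ≥ 2` and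
`‖E‖_{q→L^p(Y)} ≤ 8 (k/N)^(1/p) ‖E‖_{q→L^p(Z)} + C (log R)² κ^(1/p) |U|^(1-1/q)`. Both terms are
necessary for unit cubes. It follows that for `2 ≤ q ≤ 4` and for all but a proportion `R^(-A)` of
the sets of `k ≤ R^(1+q/2)` unit cubes in `[-R,R)³` the inequality
`‖ext U f‖_{L^q(Y)} ≤ C (log R)⁴ ‖f‖_{L^q(U)}` holds for all `U` and all `f ∈ L^q(U)` (for `q = 3`
these are `R^(5/2)` among the `8 R³` cubes), that every bound `‖E‖_{q→L^q([-R,R)³)} ≤ C_ε R^(a+ε)`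
is equivalent to the bound `C_ε R^(a-τ/q+ε)` for typical sets of `⌈R^(3-τ)⌉` unit cubes, if
`a ≥ τ/q`, and that the bound `C_ε R^ε` for `[-R,R)³` (the extension conjecture, up to `R^ε`, for
`q = 3`) is equivalent to the bound `C_ε R^ε` for typical sets of `⌈R^(3-τ)⌉` cubes for every
`τ > 0`.

The proof uses that the restriction of `F` to the region is tested against the kernels
`ξ ↦ e^{-i Φ(x)·ξ}`: duality, the sampling method of Maurey for averages of these kernels, a union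
bound over all samples (the same samples serve for all `U` and `f`), concentration for sums over
random sets, and a layer cake argument. It is the counterpart in physical space of the theorem on
random sets of caps in the file `RandomCapsLq`.
-/

namespace Pool.Agent.Results.MP_5ab805_an.RandomRegions

open MeasureTheory Set Metric Complex
open scoped ENNReal NNReal RealInnerProductSpace

abbrev E (n : ℕ) := EuclideanSpace ℝ (Fin n)

/-- the paraboloid `x ↦ (x_1, x_2, x_1^2 + x_2^2)` -/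
noncomputable def Phi (x : E 2) : E 3 := !₂[x 0, x 1, x 0 ^ 2 + x 1 ^ 2]

/-- the Fourier extension operator of the paraboloid over `U` -/
noncomputable def ext (U : Set (E 2)) (f : E 2 → ℂ) (ξ : E 3) : ℂ :=
  ∫ x in U, Complex.exp (-((⟪Phi x, ξ⟫ : ℝ) : ℂ) * I) * f x

/-- The norm of `ext U` from `L^q(U)` to `L^p(Y)`: the supremum of `‖ext U f‖_{L^p(Y)}` over the
measurable functions `f` with `‖f‖_{L^q(U)} ≤ 1`. -/
noncomputable def opNorm (U : Set (E 2)) (Y : Set (E 3)) (q p : ℝ) : ℝ≥0∞ :=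
  ⨆ (f : E 2 → ℂ)
    (_ : Measurable f ∧ eLpNorm f (ENNReal.ofReal q) (volume.restrict U) ≤ 1),
    eLpNorm (ext U f) (ENNReal.ofReal p) (volume.restrict Y)

/-- the half-open box `[-R, R)^3` -/
def box (R : ℝ) : Set (E 3) := {ξ | ∀ i, -R ≤ ξ i ∧ ξ i < R}

/-- The unit cube with index `j`. The `(2R)^3` cubes tile the box `[-R, R)^3`. -/
def cube (R : ℕ) (j : Fin 3 → Fin (2 * R)) : Set (E 3) :=
  {ξ | ∀ i, ((j i : ℕ) : ℝ) ≤ ξ i + R ∧ ξ i + R < (j i : ℕ) + 1}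

/-- The cap with index `j`: a square of side `1/R`. The `(2R)^2` caps tile `[-1,1)^2`. -/
def cap (R : ℕ) (j : Fin 2 → Fin (2 * R)) : Set (E 2) :=
  {x | ∀ i, ((j i : ℕ) : ℝ) ≤ R * (x i + 1) ∧ R * (x i + 1) < (j i : ℕ) + 1}

/-- The union of the unit cubes with index in `I`. -/
def cubes (R : ℕ) (I : Finset (Fin 3 → Fin (2 * R))) : Set (E 3) := ⋃ j ∈ I, cube R j

/-- The property `P` holds for all but a proportion `δ` of the sets of `k` elements of `J`. -/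
def Most {ι : Type} (J : Finset ι) (k : ℕ) (δ : ℝ) (P : Finset ι → Prop) : Prop :=
  ({I : Finset ι | I ⊆ J ∧ I.card = k ∧ ¬ P I}.ncard : ℝ) ≤ δ * (J.card.choose k : ℕ)

/-- For all but a proportion `δ` of the sets of `k` unit cubes in `[-R, R)^3` the norm of the
extension operator from `L^q(U)` to `L^q` of their union is at most `X`. -/
def Typical (U : Set (E 2)) (R k : ℕ) (q δ X : ℝ) : Prop :=
  Most Finset.univ k δ fun I => opNorm U (cubes R I) q q ≤ ENNReal.ofReal X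

/-- The region `Y ⊆ Z` samples the extensions of the functions on `U`, with the factor `t` (the
density of `Y` in `Z`) and the errors `L κ / s²`, `L κ^(1/p) ‖f‖₁`, `L κ^(1/p) |U|^(1-1/q)` for the
level sets, the `L^p` norms and the operator norms. -/
def Samples (U : Set (E 2)) (Y Z : Set (E 3)) (t L κ : ℝ) : Prop :=
  (∀ f : E 2 → ℂ, IntegrableOn f U →
    (∀ s : ℝ, 0 < s →
      volume (Y ∩ {ξ | s * ∫ x in U, ‖f x‖ < ‖ext U f ξ‖}) ≤
        ENNReal.ofReal (2 * t) * volume (Z ∩ {ξ | s / 4 * ∫ x in U, ‖f x‖ < ‖ext U f ξ‖}) +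
        ENNReal.ofReal (L * κ / s ^ 2)) ∧
    (∀ p : ℝ, 2 ≤ p →
      eLpNorm (ext U f) (ENNReal.ofReal p) (volume.restrict Y) ≤
        ENNReal.ofReal (8 * t ^ (1 / p)) *
          eLpNorm (ext U f) (ENNReal.ofReal p) (volume.restrict Z) +
        ENNReal.ofReal (L * κ ^ (1 / p)) * eLpNorm f 1 (volume.restrict U))) ∧
  (∀ q p : ℝ, 1 ≤ q → 2 ≤ p →
    opNorm U Y q p ≤ ENNReal.ofReal (8 * t ^ (1 / p)) * opNorm U Z q p +
      ENNReal.ofReal (L * κ ^ (1 / p)) * volume U ^ (1 - 1 / q))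

/-- **Random regions sample extensions.** For all `A, B` there is `C` such that for all `R ≥ 2`,
`κ > 0` and all families of at most `R^B` pairwise disjoint measurable cells `θ_i ⊆ B_R`, `i ∈ J`,
of volume at most `κ`: for all but a proportion `R^(-A)` of the sets `I` of `k` cells, with
`Y = ⋃_{i ∈ I} θ_i`, `Z = ⋃_{i ∈ J} θ_i`, `N = |J|`, one has, for all `U` at the same time,
* `|Y ∩ {|F| > s ‖f‖₁}| ≤ 2 (k/N) |Z ∩ {|F| > (s/4) ‖f‖₁}| + C (log R)² κ / s²` and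
  `‖F‖_{L^p(Y)} ≤ 8 (k/N)^(1/p) ‖F‖_{L^p(Z)} + C (log R)² κ^(1/p) ‖f‖₁` for all `f ∈ L¹(U)`, where
  `F = ext U f`, all `s > 0` and all `p ≥ 2`;
* `‖E‖_{q→L^p(Y)} ≤ 8 (k/N)^(1/p) ‖E‖_{q→L^p(Z)} + C (log R)² κ^(1/p) |U|^(1-1/q)` for all
  `q ≥ 1` and `p ≥ 2`. -/
def Sampling : Prop :=
  ∀ A B : ℝ, 0 ≤ A → 0 ≤ B → ∃ C : ℝ, ∀ R : ℝ, 2 ≤ R → ∀ κ : ℝ, 0 < κ →
    ∀ (ι : Type) (J : Finset ι) (θ : ι → Set (E 3)), (J.card : ℝ) ≤ R ^ B →
    (∀ i ∈ J, MeasurableSet (θ i) ∧ θ i ⊆ ball 0 R ∧ volume (θ i) ≤ ENNReal.ofReal κ) →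
    (J : Set ι).PairwiseDisjoint θ → ∀ k : ℕ, 1 ≤ k → k ≤ J.card →
    Most J k (R ^ (-A)) fun I => ∀ U : Set (E 2), MeasurableSet U → U ⊆ ball 0 (1 / 2) →
      Samples U (⋃ i ∈ I, θ i) (⋃ i ∈ J, θ i) (k / J.card) (C * Real.log R ^ 2) κ

/-- **Both terms are necessary.** If `‖E‖_{q→L^p(Y)} ≤ X` for all but a proportion `k/(2N)` of the
unions `Y` of `k` cells, then `(k/(2N))^(1/p) ‖E‖_{q→L^p(Z)} ≤ X`; and
`‖E‖_{q→L^p(Y)} ≥ c |U|^(1-1/q)` for `q, p ≥ 2` if `Y` contains a ball of radius `1/2`. -/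
def Necessity : Prop :=
  (∀ (ι : Type) (J : Finset ι) (θ : ι → Set (E 3)), (∀ i ∈ J, MeasurableSet (θ i)) →
    (J : Set ι).PairwiseDisjoint θ → volume (⋃ i ∈ J, θ i) ≠ ⊤ → ∀ k : ℕ, 1 ≤ k → k ≤ J.card →
    ∀ (U : Set (E 2)) (q p : ℝ), 1 ≤ p → ∀ X : ℝ≥0∞,
    (Most J k ((k : ℝ) / (2 * J.card)) fun I => opNorm U (⋃ i ∈ I, θ i) q p ≤ X) →
    ENNReal.ofReal (((k : ℝ) / (2 * J.card)) ^ (1 / p)) * opNorm U (⋃ i ∈ J, θ i) q p ≤ X) ∧
  (∃ c : ℝ, 0 < c ∧ ∀ U : Set (E 2), MeasurableSet U → U ⊆ ball 0 (1 / 2) →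
    ∀ (Y : Set (E 3)) (ξ₀ : E 3), ball ξ₀ (1 / 2) ⊆ Y → ∀ q p : ℝ, 2 ≤ q → 2 ≤ p →
      ENNReal.ofReal c * volume U ^ (1 - 1 / q) ≤ opNorm U Y q p)

/-- **Random caps and random regions.** For all `A` there is `C` such that for all `U`: for all but
a proportion `R^(-A)` of the pairs of a set of `k` caps (squares of side `1/(2R)`, with union `S`)
and a set of `l` unit cubes in `[-R,R)³` (with union `Y`): for all `2 ≤ q ≤ 4` the norm of the
extension operator from `L^q(U ∩ S)` to `L^q(Y)` is at most `C (log R)⁴ ((l/R³)^(1/q)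
((k/R²)^(1-1/q) R^(2/q-1/2) + (k/R²)^(1/2-1/q) R^(3/q-1)) + (k/R²)^(1-1/q))`. -/
def CapsAndCubes : Prop :=
  ∀ A : ℝ, 0 ≤ A → ∃ C : ℝ, ∀ U : Set (E 2), MeasurableSet U → U ⊆ ball 0 (1 / 2) →
    ∀ R k l : ℕ, 2 ≤ R → 1 ≤ k → k ≤ (2 * (2 * R)) ^ 2 → 1 ≤ l → l ≤ (2 * R) ^ 3 →
    ({P : Finset (Fin 2 → Fin (2 * (2 * R))) × Finset (Fin 3 → Fin (2 * R)) |
      P.1.card = k ∧ P.2.card = l ∧ ¬ ∀ q : ℝ, 2 ≤ q → q ≤ 4 →
      opNorm (U ∩ ⋃ j ∈ P.1, cap (2 * R) j) (cubes R P.2) q q ≤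
      ENNReal.ofReal (C * Real.log R ^ 4 *
        ((l / (R : ℝ) ^ 3) ^ (1 / q) * ((k / (R : ℝ) ^ 2) ^ (1 - 1 / q) *
          (R : ℝ) ^ (2 / q - 1 / 2) + (k / (R : ℝ) ^ 2) ^ (1 / 2 - 1 / q) *
          (R : ℝ) ^ (3 / q - 1)) + (k / (R : ℝ) ^ 2) ^ (1 - 1 / q)))}.ncard : ℝ) ≤
    (R : ℝ) ^ (-A) * ((((2 * (2 * R)) ^ 2).choose k : ℕ) * (((2 * R) ^ 3).choose l : ℕ))

open Pool.Agent.J6H90 in
open Pool.Agent.N248.RC (un) in
open Classical in
lemma typical_iff (U : Set (E 2)) (R k : ℕ) (q δ X : ℝ) : Typical U R k q δ X ↔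
      (((Finset.powersetCard k (Finset.univ : Finset (Fin 3 → Fin (2 * R)))).filter (fun I =>
        ¬ RG.opNorm U (un (RG.cube R) I) q q ≤ ENNReal.ofReal X)).card : ℝ) ≤
      δ * ((((2 * R) ^ 3).choose k : ℕ) : ℝ) := by
  unfold Typical Most
  have e : {I : Finset (Fin 3 → Fin (2 * R)) | I ⊆ Finset.univ ∧ I.card = k ∧
      ¬ opNorm U (cubes R I) q q ≤ ENNReal.ofReal X} =
      (((Finset.powersetCard k (Finset.univ : Finset (Fin 3 → Fin (2 * R)))).filter (fun I =>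
        ¬ RG.opNorm U (un (RG.cube R) I) q q ≤ ENNReal.ofReal X) :
          Finset (Finset (Fin 3 → Fin (2 * R)))) : Set (Finset (Fin 3 → Fin (2 * R)))) := by
    ext I
    rw [Finset.mem_coe, Finset.mem_filter, Finset.mem_powersetCard, mem_ofPred_eq]
    constructor
    · rintro ⟨h0, h1, h2⟩
      exact ⟨⟨h0, h1⟩, h2⟩
    · rintro ⟨⟨h0, h1⟩, h2⟩
      exact ⟨h0, h1, h2⟩
  rw [e, Set.ncard_coe_finset, RG.card_cubes]

open Pool.Agent.J6H90 in
open Pool.Agent.N248.RC (un) in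
lemma part_one : Sampling := by
  intro A B hA hB
  classical
  obtain ⟨C, hC0, hC⟩ := RG.typical A B hA hB
  refine ⟨max C (3 * (24 + C * B)), ?_⟩
  intro R hR κ hκ ι J θ hJ hθ hd k hk hkJ
  have hR1 : (1 : ℝ) ≤ R := by linarith
  have hm : ∀ i ∈ J, MeasurableSet (θ i) := fun i hi => (hθ i hi).1
  have hb : ∀ i ∈ J, θ i ⊆ ball 0 R := fun i hi => (hθ i hi).2.1
  have hv : ∀ i ∈ J, volume.real (θ i) ≤ κ := fun i hi =>
    ENNReal.toReal_le_of_le_ofReal hκ.le (hθ i hi).2.2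
  have h := hC R hR κ hκ ι J k θ hk hkJ hJ hm hb hd hv
  refine le_trans ?_ h
  refine Nat.cast_le.2 ?_
  refine le_trans (Set.ncard_le_ncard (fun I hI => ?_) (Finset.finite_toSet _))
    (Set.ncard_coe_finset _).le
  rw [Finset.mem_coe, Finset.mem_filter, Finset.mem_powersetCard]
  refine ⟨⟨hI.1, hI.2.1⟩, fun hgood => hI.2.2 fun U hU hUb => ?_⟩
  have hlog : 0 ≤ Real.log R ^ 2 := by positivity
  have hYIm : MeasurableSet (un θ I) := RG.un_meas θ I fun i hi => hm i (hI.1 hi)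
  have hYJm : MeasurableSet (un θ J) := RG.un_meas θ J hm
  have hYJR : un θ J ⊆ ball 0 R := RG.un_ball θ J R hb
  have hIJ : un θ I ⊆ un θ J := RG.un_sub θ I J hI.1
  have hYIκ : volume.real (un θ I) ≤ k * κ := by
    have := RG.un_vol θ I κ fun i hi => hv i (hI.1 hi)
    rwa [hI.2.1] at this
  have hN : (0 : ℝ) < J.card := by
    have : 0 < J.card := by omega
    exact_mod_cast this
  have hkR : (k : ℝ) ≤ R ^ B := le_trans (by exact_mod_cast hkJ) hJ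
  have hmax1 : C ≤ max C (3 * (24 + C * B)) := le_max_left _ _
  have hmax2 : 3 * (24 + C * B) ≤ max C (3 * (24 + C * B)) := le_max_right _ _
  have hfin : ∀ S : Set (E 3), S ⊆ un θ J → volume S ≠ ⊤ := fun S hS =>
    ((measure_mono (hS.trans hYJR)).trans_lt measure_ball_lt_top).ne
  refine ⟨fun f hf => ⟨fun s hs => ?_, fun p hp => ?_⟩, fun q p hq hp => ?_⟩
  · have h1 := hgood U hU hUb f hf s hs
    have h2 : volume (un θ I ∩ {ξ | s * ∫ x in U, ‖f x‖ < ‖RG.ext U f ξ‖}) ≠ ⊤ :=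
      hfin _ (inter_subset_left.trans hIJ)
    have h3 : volume (un θ J ∩ {ξ | s / 4 * ∫ x in U, ‖f x‖ < ‖RG.ext U f ξ‖}) ≠ ⊤ :=
      hfin _ inter_subset_left
    have h4 := ENNReal.ofReal_le_ofReal h1
    rw [ENNReal.ofReal_add (by positivity) (by positivity), ENNReal.ofReal_mul (by positivity),
      Measure.real, Measure.real, ENNReal.ofReal_toReal h2, ENNReal.ofReal_toReal h3] at h4
    refine h4.trans (add_le_add le_rfl (ENNReal.ofReal_le_ofReal ?_))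
    refine div_le_div_of_nonneg_right ?_ (by positivity)
    exact mul_le_mul_of_nonneg_right (mul_le_mul_of_nonneg_right hmax1 hlog) hκ.le
  · have h1 := RG.lp_of_samp C B R κ J.card k hC0 hB hR hκ hN hk hkR (un θ J) (un θ I) hYIm hYJm
      hYJR hIJ hYIκ hgood U hU hUb f hf p hp
    refine h1.trans (add_le_add le_rfl (mul_le_mul' (ENNReal.ofReal_le_ofReal ?_) le_rfl))
    exact mul_le_mul_of_nonneg_right (mul_le_mul_of_nonneg_right hmax2 hlog)
      (Real.rpow_nonneg hκ.le _)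
  · have h1 := RG.op_of_samp C B R κ J.card k hC0 hB hR hκ hN hk hkR (un θ J) (un θ I) hYIm hYJm
      hYJR hIJ hYIκ hgood U hU hUb q p hq hp
    refine h1.trans (add_le_add le_rfl (mul_le_mul' (ENNReal.ofReal_le_ofReal ?_) le_rfl))
    exact mul_le_mul_of_nonneg_right (mul_le_mul_of_nonneg_right hmax2 hlog)
      (Real.rpow_nonneg hκ.le _)

open Pool.Agent.J6H90 in
open Pool.Agent.N248.RC (un nc) in
/-- **The extension conjecture for the paraboloid in `ℝ³` on random regions.** Here `U` is any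
measurable subset of `B(0,1/2)`, and `‖E‖_{q→L^q(Y)}` is the norm of the extension operator from
`L^q(U)` to `L^q(Y)`.

(1) `Sampling`: typical unions of cells sample the extensions of all functions at the same time.

(2) `Necessity`: both terms of the bound of (1) are necessary for unit cubes.

(3) For all but a proportion `R^(-A)` of the sets of `k` unit cubes in `[-R,R)³`, with union `Y`:
for all `U` and all `2 ≤ q ≤ 4`,
`‖E‖_{q→L^q(Y)} ≤ C (log R)⁴ ((k/R³)^(1/q) R^(2/q-1/2) + 1)`, and therefore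
`‖E‖_{q→L^q(Y)} ≤ C (log R)⁴` if `k ≤ R^(1+q/2)`.

(4) `CapsAndCubes`: random caps and random regions at the same time.

(5) Let `q ≥ 2`, `0 ≤ τ ≤ 3` and `a ≥ τ/q`. Then the bound `‖E‖_{q→L^q([-R,R)³)} ≤ C_ε R^(a+ε)`
holds if and only if, for each `A`, `‖E‖_{q→L^q(Y)} ≤ C_{ε,A} R^(a-τ/q+ε)` for the unions `Y` of all
but a proportion `R^(-A)` of the sets of `⌈R^(3-τ)⌉` unit cubes.

(6) Let `q ≥ 2`. Then `‖E‖_{q→L^q([-R,R)³)} ≤ C_ε R^ε` (for `q = 3` this is the extension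
conjecture up to factors `R^ε`) if and only if for each `τ ∈ (0,3]` and each `A` one has
`‖E‖_{q→L^q(Y)} ≤ C_{ε,A} R^ε` for the unions `Y` of all but a proportion `R^(-A)` of the sets of
`⌈R^(3-τ)⌉` unit cubes. -/
theorem result : Sampling ∧ Necessity ∧
    (∀ A : ℝ, 0 ≤ A → ∃ C : ℝ, ∀ R k : ℕ, 2 ≤ R → 1 ≤ k → k ≤ (2 * R) ^ 3 →
      Most Finset.univ k ((R : ℝ) ^ (-A)) fun I => ∀ U : Set (E 2), MeasurableSet U →
        U ⊆ ball 0 (1 / 2) → ∀ q : ℝ, 2 ≤ q → q ≤ 4 →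
        (opNorm U (cubes R I) q q ≤ ENNReal.ofReal (C * Real.log R ^ 4 *
          ((k / (R : ℝ) ^ 3) ^ (1 / q) * (R : ℝ) ^ (2 / q - 1 / 2) + 1))) ∧
        ((k : ℝ) ≤ (R : ℝ) ^ (1 + q / 2) →
          opNorm U (cubes R I) q q ≤ ENNReal.ofReal (C * Real.log R ^ 4))) ∧
    CapsAndCubes ∧
    (∀ U : Set (E 2), MeasurableSet U → U ⊆ ball 0 (1 / 2) → ∀ q τ a : ℝ, 2 ≤ q → 0 ≤ τ → τ ≤ 3 →
      τ / q ≤ a →
      ((∀ ε : ℝ, 0 < ε → ∃ C : ℝ, ∀ R : ℕ, 2 ≤ R →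
        opNorm U (box R) q q ≤ ENNReal.ofReal (C * (R : ℝ) ^ (a + ε))) ↔
      ∀ ε : ℝ, 0 < ε → ∀ A : ℝ, 0 ≤ A → ∃ C : ℝ, ∀ R : ℕ, 2 ≤ R →
        Typical U R ⌈(R : ℝ) ^ (3 - τ)⌉₊ q ((R : ℝ) ^ (-A))
          (C * (R : ℝ) ^ (a - τ / q + ε)))) ∧
    (∀ U : Set (E 2), MeasurableSet U → U ⊆ ball 0 (1 / 2) → ∀ q : ℝ, 2 ≤ q →
      ((∀ ε : ℝ, 0 < ε → ∃ C : ℝ, ∀ R : ℕ, 2 ≤ R →
        opNorm U (box R) q q ≤ ENNReal.ofReal (C * (R : ℝ) ^ ε)) ↔
      ∀ τ : ℝ, 0 < τ → τ ≤ 3 → ∀ ε : ℝ, 0 < ε → ∀ A : ℝ, 0 ≤ A → ∃ C : ℝ, ∀ R : ℕ, 2 ≤ R →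
        Typical U R ⌈(R : ℝ) ^ (3 - τ)⌉₊ q ((R : ℝ) ^ (-A)) (C * (R : ℝ) ^ ε))) := by
  classical
  have hnc : ∀ (τ : ℝ) (R : ℕ), ⌈(R : ℝ) ^ (3 - τ)⌉₊ = nc 3 τ R := by
    intro τ R
    unfold nc
    push_cast
    rfl
  refine ⟨part_one, ⟨?_, ?_⟩, ?_, ?_, ?_, ?_⟩
  · intro ι J θ hθ hd hYJ k hk hkJ U q p hp X hbad
    refine RG.conv J k hk hkJ θ hθ hd hYJ U q p hp X (le_trans ?_ hbad)
    refine Nat.cast_le.2 ?_
    rw [← Set.ncard_coe_finset]
    refine Set.ncard_le_ncard (fun I hI => ?_) ?_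
    · rw [Finset.mem_coe, Finset.mem_filter, Finset.mem_powersetCard] at hI
      exact ⟨hI.1.1, hI.1.2, hI.2⟩
    · refine (Finset.finite_toSet J.powerset).subset fun I hI => ?_
      rw [Finset.mem_coe, Finset.mem_powerset]
      exact hI.1
  · refine ⟨1 / 2 * min 1 (volume.real (ball (0 : E 3) (1 / 2))), ?_, ?_⟩
    · have : 0 < volume.real (ball (0 : E 3) (1 / 2)) :=
        ENNReal.toReal_pos (measure_ball_pos _ _ (by norm_num)).ne' measure_ball_lt_top.ne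
      positivity
    · intro U hU hUb Y ξ₀ hY q p hq hp
      exact RG.low U hU hUb Y ξ₀ hY q p hq hp
  · intro A hA
    obtain ⟨C, hC0, hC⟩ := RG.uncond A hA
    refine ⟨2 * C, fun R k hR hk hkN => ?_⟩
    have hR1 : (1 : ℝ) ≤ R := by exact_mod_cast (by omega : 1 ≤ R)
    have hR0 : (0 : ℝ) < R := by linarith
    unfold Most
    rw [RG.card_cubes]
    refine le_trans ?_ (hC R hR k hk hkN)
    refine Nat.cast_le.2 ?_
    refine le_trans (Set.ncard_le_ncard (fun I hI => ?_) (Finset.finite_toSet _))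
      (Set.ncard_coe_finset _).le
    rw [Finset.mem_coe, Finset.mem_filter, Finset.mem_powersetCard]
    refine ⟨⟨hI.1, hI.2.1⟩, fun hgood => hI.2.2 fun U hU hUb q hq hq4 => ?_⟩
    have h1 := hgood U hU hUb q hq hq4
    have hlog : 0 ≤ Real.log R ^ 4 := by positivity
    refine ⟨h1.trans (ENNReal.ofReal_le_ofReal ?_), fun hkR =>
      h1.trans (ENNReal.ofReal_le_ofReal ?_)⟩
    · refine mul_le_mul_of_nonneg_right (mul_le_mul_of_nonneg_right (by linarith) hlog)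
        (by positivity)
    · have h2 := RG.crit (R : ℝ) k q hR0 (Nat.cast_nonneg _) (by linarith) hkR
      calc _ ≤ C * Real.log R ^ 4 * (1 + 1) :=
            mul_le_mul_of_nonneg_left (by linarith) (by positivity)
        _ = _ := by ring
  · intro A hA
    obtain ⟨C, hC0, hC⟩ := RG.joint A hA
    refine ⟨C, fun U hU hUb R k l hR hk hkN hl hlN => ?_⟩
    refine le_trans ?_ (hC U hU hUb R k l hR hk hkN hl hlN)
    refine Nat.cast_le.2 ?_
    refine le_trans (Set.ncard_le_ncard (fun P hP => ?_) (Finset.finite_toSet _))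
      (Set.ncard_coe_finset _).le
    rw [Finset.mem_coe, Finset.mem_filter, Finset.mem_product, Finset.mem_powersetCard,
      Finset.mem_powersetCard]
    exact ⟨⟨⟨Finset.subset_univ _, hP.1⟩, ⟨Finset.subset_univ _, hP.2.1⟩⟩, hP.2.2⟩
  · intro U hU hUb q τ a hq hτ hτ3 ha
    simp_rw [typical_iff, hnc]
    constructor
    · intro h ε hε A hA
      exact RG.fwd U hU hUb q hq τ a hτ hτ3 ha h ε hε A hA
    · intro h ε hε
      obtain ⟨C, hC⟩ := h ε hε 7 (by norm_num)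
      exact ⟨4 * |C|, fun R hR => RG.bwd U q hq τ a hτ hτ3 ε C R hR (hC R hR)⟩
  · intro U hU hUb q hq
    simp_rw [typical_iff, hnc]
    exact RG.conj_iff U hU hUb q hq

end Pool.Agent.Results.MP_5ab805_an.RandomRegions
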