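import Mathlib
import Pool.Agent.J6H76.TS.R2
import Pool.Agent.J6H76.TS.D
import Pool.Agent.J6H76.TS.X
set_option autoImplicit false

/-!
# The extension conjecture for the paraboloid in `ℝ³` for functions with a thin spectrum

Let `ext U f ξ = ∫_U e^{-i Φ(x)·ξ} f(x) dx`, `Φ(x) = (x_1, x_2, x_1² + x_2²)`, let `Q` be the square
`[-1/4, 1/4]² ⊆ B(0, 1/2)`, and expand functions on `Q` in Fourier series in the second variable
only, `f(x_1, x_2) = ∑_n c_n(x_1) e^{4πi n x_2}`. Nothing is assumed on the coefficients `c_n`, that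
is, on the dependence on the first variable.

* A. Let `0 ≤ κ < 1` and let `Λ ⊆ ℤ` have the local `L⁴` property
  `∫_0^1 |∑ b_n e^{2πi n x}|⁴ dx ≤ A N^κ (∑ |b_n|²)²` for all `b` supported on `Λ ∩ [a, a + N)`. Then
  `‖ext Q f‖_q ≤ C ‖f‖_{L^q_{x_1} L²_{x_2}} ≤ C ‖f‖_{L^q(Q)}` for all `q > 2 + 2/(2-κ)` and all `f`
  with frequencies `n ∈ Λ`. For `κ = 0` this is the full range `q > 3` of the conjecture.
* B. If the number of `n ∈ Λ` with `n + k ∈ Λ` is at most `C_ε |k|^ε` for all `k ≠ 0`, then the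
  inequality of the conjecture holds for these functions in the full range `q > 3`.
* C. This applies to the set of the `d`-th powers, `d ≥ 2`.
* D. For arbitrary frequencies and arbitrary `c_n`, the inequality holds in the full range `q > 3` on
  average over the signs of the coefficients `c_n`.
* E. For `N` frequencies in any position, and `3 < q < 4`, the inequality holds with the constant
  `C_σ N^σ` for all `σ > 2/q - 1/2` (hence with `N^{1/6+ε}` in the full range).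

The proof combines an `ℓ²`-valued form of the local `L⁴` estimate for the parabola in the variables
`(ξ_1, ξ_3)`, interpolated with `L²`, with the dispersive estimate
`∫ |∫_J e^{i(y η + y² t)} g(y) dy|⁴ dη ≤ C |t|^{-1+κ} ‖g‖_2⁴` for functions `g` with frequencies in
`Λ`. The latter uses a Gaussian window, a decomposition of `Λ` into blocks of length `|t|`, and the
boundedness of the projections to half lines in `L⁴`.
-/

namespace Pool.Agent.Results.MP_5ab805_an.ThinSpectrum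

open MeasureTheory Set Complex
open scoped ENNReal NNReal RealInnerProductSpace

abbrev E (n : ℕ) := EuclideanSpace ℝ (Fin n)

/-- the paraboloid `x ↦ (x_1, x_2, x_1^2 + x_2^2)` -/
noncomputable def Phi (x : E 2) : E 3 := !₂[x 0, x 1, x 0 ^ 2 + x 1 ^ 2]

/-- the Fourier extension operator of the paraboloid over `U` -/
noncomputable def ext (U : Set (E 2)) (f : E 2 → ℂ) (ξ : E 3) : ℂ :=
  ∫ x in U, Complex.exp (-((⟪Phi x, ξ⟫ : ℝ) : ℂ) * I) * f x

/-- the side `[-1/4, 1/4]` -/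
def side : Set ℝ := Icc (-1 / 4) (1 / 4)

/-- the square `[-1/4, 1/4]²`, a subset of the ball of radius `1/2` -/
def square : Set (E 2) := {x | |x 0| ≤ 1 / 4 ∧ |x 1| ≤ 1 / 4}

/-- all frequencies of `f` in the second variable belong to `Λ`: the coefficients
`∫ f(x_1, x_2) e^{-4πi n x_2} dx_2` vanish for `n ∉ Λ` -/
def SpectrumIn (Λ : Set ℤ) (f : E 2 → ℂ) : Prop :=
  ∀ n ∉ Λ, ∀ᵐ x₁ ∂(volume.restrict side),
    ∫ x₂ in side, Complex.exp (-(4 * Real.pi * n * x₂ : ℝ) * I) * f !₂[x₁, x₂] = 0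

/-- the norm of `L^q_{x_1} L²_{x_2}` of the square -/
noncomputable def mixedNorm (q : ℝ) (f : E 2 → ℂ) : ℝ≥0∞ :=
  (∫⁻ x₁ in side, (∫⁻ x₂ in side, ‖f !₂[x₁, x₂]‖ₑ ^ 2) ^ (q / 2)) ^ (1 / q)

/-- the local `L⁴` property of `Λ` -/
def LocalL4 (Λ : Set ℤ) (κ A : ℝ) : Prop :=
  ∀ (a : ℤ) (N : ℕ), 1 ≤ N → ∀ (F : Finset ℤ) (b : ℤ → ℂ),
    (∀ n ∈ F, n ∈ Λ ∧ a ≤ n ∧ n < a + N) →
    ∫ x in (0 : ℝ)..1, ‖∑ n ∈ F, b n * Complex.exp (2 * Real.pi * n * x * I)‖ ^ 4 ≤
      A * (N : ℝ) ^ κ * (∑ n ∈ F, ‖b n‖ ^ 2) ^ 2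

/-- the extension estimate for the functions with frequencies in `Λ` -/
def Estimate (Λ : Set ℤ) (q : ℝ) : Prop :=
  ∃ C : ℝ≥0, ∀ f : E 2 → ℂ, AEStronglyMeasurable f (volume.restrict square) → SpectrumIn Λ f →
    eLpNorm (ext square f) (ENNReal.ofReal q) volume ≤ C * mixedNorm q f ∧
    mixedNorm q f ≤ eLpNorm f (ENNReal.ofReal q) (volume.restrict square)

/-- the series `∑_{n ∈ F} ± c_n(x_1) e^{4πi n x_2}`, with the sign `+` for `n ∈ S` only -/
noncomputable def series (F : Finset ℤ) (c : ℤ → ℝ → ℂ) (S : Finset ℤ) (x : E 2) : ℂ :=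
  ∑ n ∈ F, (if n ∈ S then 1 else -1) * (c n (x 0) * Complex.exp (4 * Real.pi * n * x 1 * I))

/-- A. Thin spectra in one variable. -/
def ThinSpectra : Prop :=
  ∀ (Λ : Set ℤ) (κ A q : ℝ), 0 ≤ κ → κ < 1 → LocalL4 Λ κ A → 2 + 2 / (2 - κ) < q → Estimate Λ q

/-- B. Sets with few representations of differences: the full range. -/
def FewDifferences : Prop :=
  ∀ Λ : Set ℤ, (∀ ε : ℝ, 0 < ε → ∃ R : ℝ, ∀ k : ℤ, k ≠ 0 → {n : ℤ | n ∈ Λ ∧ n + k ∈ Λ}.Finite ∧
    ({n : ℤ | n ∈ Λ ∧ n + k ∈ Λ}.ncard : ℝ) ≤ R * |(k : ℝ)| ^ ε) →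
    ∀ q : ℝ, 3 < q → Estimate Λ q

/-- C. The `d`-th powers. -/
def Powers : Prop :=
  ∀ d : ℕ, 2 ≤ d → ∀ q : ℝ, 3 < q → Estimate {m : ℤ | ∃ j : ℕ, m = (j : ℤ) ^ d} q

/-- D. All frequencies, with random signs. -/
def RandomSigns : Prop :=
  ∀ q : ℝ, 3 < q → ∃ C : ℝ≥0, ∀ (F : Finset ℤ) (c : ℤ → ℝ → ℂ), (∀ n, Measurable (c n)) →
    (∑ S ∈ F.powerset, eLpNorm (ext square (series F c S)) (ENNReal.ofReal q) volume ^ q) /
      2 ^ F.card ≤ C * mixedNorm q (series F c F) ^ q ∧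
    mixedNorm q (series F c F) ≤
      eLpNorm (series F c F) (ENNReal.ofReal q) (volume.restrict square)

/-- E. Few frequencies, in any position. -/
def FewFrequencies : Prop :=
  ∀ q σ : ℝ, 3 < q → q < 4 → 2 / q - 1 / 2 < σ → ∃ C : ℝ≥0, ∀ (N : ℕ) (F : Finset ℤ)
    (f : E 2 → ℂ), 1 ≤ N → F.card ≤ N → AEStronglyMeasurable f (volume.restrict square) →
    SpectrumIn ↑F f →
    eLpNorm (ext square f) (ENNReal.ofReal q) volume ≤
      C * ENNReal.ofReal ((N : ℝ) ^ σ) * mixedNorm q f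

open Pool.Agent.J6H76.TS in
lemma mixed_eq (q : ℝ) (f : E 2 → ℂ) : mixedNorm q f = Mq q f ^ (1 / q) := rfl

lemma lp_eq {V : Type*} [MeasurableSpace V] (μ : Measure V) (g : V → ℂ) (q : ℝ) (hq : 0 < q) :
    eLpNorm g (ENNReal.ofReal q) μ = (∫⁻ x, ‖g x‖ₑ ^ q ∂μ) ^ (1 / q) := by
  rw [eLpNorm_eq_lintegral_rpow_enorm_toReal (by simpa using hq) ENNReal.ofReal_ne_top,
    ENNReal.toReal_ofReal hq.le]

open Pool.Agent.J6H76.TS in
lemma mixed_le (q : ℝ) (hq : 2 ≤ q) (f : E 2 → ℂ)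
    (hf : AEStronglyMeasurable f (volume.restrict square)) :
    mixedNorm q f ≤ eLpNorm f (ENNReal.ofReal q) (volume.restrict square) := by
  have hae : f =ᵐ[volume.restrict Q] hf.mk f := hf.ae_eq_mk
  rw [lp_eq _ _ q (by linarith), mixed_eq, Mq_congr q hae]
  refine ENNReal.rpow_le_rpow ?_ (by positivity)
  refine (Mq_le hf.stronglyMeasurable_mk.measurable q hq).trans (le_of_eq ?_)
  refine lintegral_congr_ae ?_
  filter_upwards [hae] with x hx
  rw [hx]

open Pool.Agent.J6H76.TS in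
lemma estimate_of {Λ : Set ℤ} {κ A : ℝ} (hL : LocL4 Λ κ A) (hA : 0 ≤ A) (hκ : 0 ≤ κ)
    (hκ1 : κ < 1) (q : ℝ) (hq : 2 + 2 / (2 - κ) < q) : Estimate Λ q := by
  have hq2 : 2 ≤ q := by
    have : 0 ≤ 2 / (2 - κ) := by
      have : 0 < 2 - κ := by linarith
      positivity
    linarith
  have hq0 : 0 < q := by linarith
  obtain ⟨C, hC, h⟩ := thin_all hL hA hκ hκ1 q hq
  have hCt : C ^ (1 / q) ≠ ∞ := ENNReal.rpow_ne_top_of_nonneg (by positivity) hC
  refine ⟨(C ^ (1 / q)).toNNReal, fun f hf hsp => ⟨?_, mixed_le q hq2 f hf⟩⟩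
  rw [ENNReal.coe_toNNReal hCt, lp_eq _ _ q hq0, mixed_eq,
    ← ENNReal.mul_rpow_of_nonneg _ _ (by positivity : 0 ≤ 1 / q)]
  refine ENNReal.rpow_le_rpow ?_ (by positivity)
  have hae : f =ᵐ[volume.restrict Q] hf.mk f := hf.ae_eq_mk
  have h1 := h (hf.mk f) hf.stronglyMeasurable_mk.measurable (SpecIn_congr hae hsp)
  rw [← Mq_congr q hae] at h1
  refine le_trans (le_of_eq ?_) h1
  refine lintegral_congr fun ξ => ?_
  rw [← ext_congr hae ξ]
  rfl

open Pool.Agent.J6H76.TS in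
lemma locL4_of {Λ : Set ℤ} {κ A : ℝ} (h : LocalL4 Λ κ A) : LocL4 Λ κ |A| := by
  intro a N hN F b hF
  have h1 := h a N hN F b hF
  have e1 : ∀ x : ℝ, ∑ n ∈ F, b n * Pool.Agent.R412.RT.ee (n * x) =
      ∑ n ∈ F, b n * Complex.exp (2 * Real.pi * n * x * I) := by
    intro x
    refine Finset.sum_congr rfl fun n _ => ?_
    congr 1
    unfold Pool.Agent.R412.RT.ee
    congr 1
    push_cast
    ring
  simp_rw [e1]
  refine h1.trans ?_
  have hN0 : 0 ≤ (N : ℝ) ^ κ := by positivity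
  have := le_abs_self A
  gcongr

open Pool.Agent.J6H76.TS in
lemma few_freq : FewFrequencies := by
  intro q σ hq3 hq4 hσ
  have hq0 : 0 < q := by linarith
  obtain ⟨r, hr⟩ : ∃ r : ℝ, r = q / 2 := ⟨_, rfl⟩
  have hqr : q = 2 * r := by rw [hr]; ring
  have h1 : 2 - r < q * σ := by
    have h2 : 2 / q < σ + 1 / 2 := by linarith
    rw [div_lt_iff₀ hq0] at h2
    nlinarith
  have h3 : 2 - r < min (r - 1) (q * σ) := lt_min (by linarith) h1
  obtain ⟨C, hC, h⟩ := few_low (min (r - 1) (q * σ)) r (by linarith) (by linarith) h3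
    (min_le_left _ _)
  have hCt : C ^ (1 / q) ≠ ∞ := ENNReal.rpow_ne_top_of_nonneg (by positivity) hC
  refine ⟨(C ^ (1 / q)).toNNReal, fun N F f hN hF hf hsp => ?_⟩
  have hN1 : (1 : ℝ) ≤ N := by exact_mod_cast hN
  have hae : f =ᵐ[volume.restrict Q] hf.mk f := hf.ae_eq_mk
  have h4 := h F N hN1 (by exact_mod_cast hF) (hf.mk f) hf.stronglyMeasurable_mk.measurable
    (SpecIn_congr hae hsp)
  rw [← Mq_congr _ hae, ← hqr] at h4
  have h5 : ENNReal.ofReal ((N : ℝ) ^ min (r - 1) (q * σ)) ≤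
      ENNReal.ofReal ((N : ℝ) ^ σ) ^ q := by
    rw [ENNReal.ofReal_rpow_of_nonneg (by positivity) hq0.le, ← Real.rpow_mul (by positivity)]
    refine ENNReal.ofReal_le_ofReal (Real.rpow_le_rpow_of_exponent_le hN1 ?_)
    rw [mul_comm σ]
    exact min_le_right _ _
  have h6 : ∫⁻ ξ, ‖ext square f ξ‖ₑ ^ q ≤
      C * ENNReal.ofReal ((N : ℝ) ^ σ) ^ q * Mq q f := by
    refine le_trans (le_of_eq ?_) (h4.trans (mul_le_mul' (mul_le_mul' le_rfl h5) le_rfl))
    refine lintegral_congr fun ξ => ?_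
    rw [← ext_congr hae ξ]
    rfl
  rw [ENNReal.coe_toNNReal hCt, lp_eq _ _ q hq0, mixed_eq]
  refine (ENNReal.rpow_le_rpow h6 (by positivity : 0 ≤ 1 / q)).trans (le_of_eq ?_)
  rw [ENNReal.mul_rpow_of_nonneg _ _ (by positivity : 0 ≤ 1 / q),
    ENNReal.mul_rpow_of_nonneg _ _ (by positivity : 0 ≤ 1 / q), ← ENNReal.rpow_mul,
    mul_one_div_cancel hq0.ne', ENNReal.rpow_one]

/-- **Theorem.** The extension conjecture for the paraboloid in `ℝ³` for functions with a thin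
spectrum in one variable, for random Fourier series in one variable, and, with a power loss in
their number, for few frequencies in one variable. -/
theorem result : ThinSpectra ∧ FewDifferences ∧ Powers ∧ RandomSigns ∧ FewFrequencies := by
  have hB : FewDifferences := by
    intro Λ hΛ q hq
    -- choose `κ` with `2 + 2/(2-κ) < q`
    obtain ⟨κ, hκ0, hκ1, hκq⟩ : ∃ κ : ℝ, 0 < κ ∧ κ < 1 ∧ 2 + 2 / (2 - κ) < q := by
      refine ⟨min (1 / 2) ((q - 3) / q), ?_, ?_, ?_⟩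
      · have : 0 < (q - 3) / q := div_pos (by linarith) (by linarith)
        exact lt_min (by norm_num) this
      · exact (min_le_left _ _).trans_lt (by norm_num)
      · set κ := min (1 / 2) ((q - 3) / q) with hκ
        have h1 : κ ≤ (q - 3) / q := min_le_right _ _
        have h2 : κ ≤ 1 / 2 := min_le_left _ _
        have hq0 : 0 < q := by linarith
        rw [le_div_iff₀ hq0] at h1
        have h3 : 0 < κ := lt_min (by norm_num) (div_pos (by linarith) hq0)
        have h4 : 2 / (2 - κ) < q - 2 := by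
          rw [div_lt_iff₀ (by linarith)]
          nlinarith
        linarith
    obtain ⟨R, hR⟩ := hΛ κ hκ0
    have hF : Pool.Agent.J6H76.TS.FewDiff Λ κ |R| := by
      intro k hk
      refine ⟨(hR k hk).1, (hR k hk).2.trans ?_⟩
      exact mul_le_mul_of_nonneg_right (le_abs_self R) (by positivity)
    exact estimate_of (Pool.Agent.J6H76.TS.fewDiff_locL4 hκ0.le (abs_nonneg R) hF)
      (by positivity) hκ0.le hκ1 q hκq
  refine ⟨?_, hB, ?_, ?_, few_freq⟩
  · intro Λ κ A q hκ0 hκ1 hL hq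
    exact estimate_of (locL4_of hL) (abs_nonneg A) hκ0 hκ1 q hq
  · intro d hd q hq
    refine hB _ (fun ε hε => ?_) q hq
    obtain ⟨R, _, hR⟩ := Pool.Agent.J6H76.TS.pow_fewDiff d hd ε hε
    exact ⟨R, hR⟩
  · intro q hq
    have hq0 : 0 < q := by linarith
    obtain ⟨C, hC, h⟩ := Pool.Agent.J6H76.TS.random_all q hq
    refine ⟨C.toNNReal, fun F c hc => ⟨?_, ?_⟩⟩
    · rw [ENNReal.coe_toNNReal hC]
      have hser : ∀ S, series F c S = Pool.Agent.J6H76.TS.ser F c S := by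
        intro S
        ext x
        unfold series Pool.Agent.J6H76.TS.ser Pool.Agent.J6H76.TS.sg
        refine Finset.sum_congr rfl fun n _ => ?_
        congr 1
      have h1 : ∀ S, eLpNorm (ext square (series F c S)) (ENNReal.ofReal q) volume ^ q =
          ∫⁻ ξ, ‖Pool.Agent.J6H76.TS.ext Pool.Agent.J6H76.TS.Q
            (Pool.Agent.J6H76.TS.ser F c S) ξ‖ₑ ^ q := by
        intro S
        rw [lp_eq _ _ q hq0, ← ENNReal.rpow_mul, one_div_mul_cancel hq0.ne', ENNReal.rpow_one, hser]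
        rfl
      simp_rw [h1]
      rw [mixed_eq, ← ENNReal.rpow_mul, one_div_mul_cancel hq0.ne', ENNReal.rpow_one, hser]
      refine ENNReal.div_le_of_le_mul ?_
      refine (h F c hc).trans (le_of_eq ?_)
      ring
    · refine mixed_le q (by linarith) _ ?_
      refine Measurable.aestronglyMeasurable ?_
      unfold series
      refine Finset.measurable_sum _ fun n _ => Measurable.const_mul (Measurable.mul ?_ ?_) _
      · exact (hc n).comp (by fun_prop)
      · fun_prop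

end Pool.Agent.Results.MP_5ab805_an.ThinSpectrum
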