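import Mathlib
import Pool.Agent.J6H73.TPO.P16
set_option autoImplicit false

/-!
# The extension conjecture for the paraboloid in `ℝ³`, tested on planar × linear products in all
# linear frames

`ext U f ξ = ∫_U e^{-i Φ(x)·ξ} f(x) dx`, `Φ(x) = (x_1, x_2, x_1² + x_2²)`. By duality the
conjecture says that for every `q > 3`, with `r = (q/2)' = q/(q-2) < 3`,

`∫ |ext U f|² W ≤ C ‖W‖_{L^r(ℝ³)} ‖f‖_q²` for all weights `W ≥ 0`, and in particular
`∫_B |ext U f|² ≤ C |B|^{1-2/q} ‖f‖_q²` for all measurable sets `B`.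

Here the test functions are products of an ARBITRARY function (set) of two linear coordinates and
an ARBITRARY function (set) of a third one, for ALL triples of linearly independent coordinates.

* `AllFrames`: sets, `3 < q < 4`, uniformly over all frames, `f ∈ L^p` with `p > 2q`, `p = ∞`
  included.
* `AllFramesWeights`: weights `u(⟪e_0,ξ⟫, ⟪e_1,ξ⟫) w(⟪e_2,ξ⟫)` in `L^r`, for all `r < 3`,
  uniformly over all orthonormal frames, `f ∈ L^p`, `p > 6`.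
* `TransversalFrames`, `TransversalWeights`: if the third direction is nowhere tangential
  (`|⟪v_2, (-2x, 1)⟫| ≥ κ |v_2|` for `x ∈ U`), densities in `L^p`, `p > 2q/(q-1)`,
  are allowed: `f ∈ L^3` for all `q > 3`, and `f ∈ L^q` as in the conjecture.
* `MovingSets`: the vertical direction, that is a planar set moving with constant velocity `w`,
  observed at the times of an arbitrary set, with decay in the velocity.
-/

namespace Pool.Agent.Results.MP_5ab805_an.TwoPlusOneFrames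

open MeasureTheory Set Metric Complex
open scoped ENNReal NNReal RealInnerProductSpace

abbrev E (n : ℕ) := EuclideanSpace ℝ (Fin n)

/-- the paraboloid `x ↦ (x_1, x_2, x_1^2 + x_2^2)` -/
noncomputable def Phi (x : E 2) : E 3 := !₂[x 0, x 1, x 0 ^ 2 + x 1 ^ 2]

/-- the normal vector `(-2x_1, -2x_2, 1)` of the paraboloid at `Phi x` -/
noncomputable def normal (x : E 2) : E 3 := !₂[-2 * x 0, -2 * x 1, 1]

/-- the Fourier extension operator of the paraboloid over `U` -/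
noncomputable def ext (U : Set (E 2)) (f : E 2 → ℂ) (ξ : E 3) : ℂ :=
  ∫ x in U, Complex.exp (-((⟪Phi x, ξ⟫ : ℝ) : ℂ) * I) * f x

/-- the product of a planar set and a linear set in the linear frame `v` -/
def productSet (v : Fin 3 → E 3) (A : Set (ℝ × ℝ)) (A₁ : Set ℝ) : Set (E 3) :=
  {ξ | (⟪v 0, ξ⟫, ⟪v 1, ξ⟫) ∈ A ∧ ⟪v 2, ξ⟫ ∈ A₁}

/-- the planar set `A` moving with velocity `w`, observed at the times of `A₁` -/
def movingSet (w : E 2) (A : Set (ℝ × ℝ)) (A₁ : Set ℝ) : Set (E 3) :=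
  {ξ | (ξ 0 - ξ 2 * w 0, ξ 1 - ξ 2 * w 1) ∈ A ∧ ξ 2 ∈ A₁}

/-- Sets in all linear frames, with a uniform constant. -/
def AllFrames : Prop :=
  ∀ (q : ℝ) (p : ℝ≥0∞), 3 < q → q < 4 → ENNReal.ofReal (2 * q) < p → ∃ C : ℝ≥0,
    ∀ (U : Set (E 2)) (f : E 2 → ℂ) (v : Fin 3 → E 3) (A : Set (ℝ × ℝ)) (A₁ : Set ℝ),
    MeasurableSet U → U ⊆ ball 0 (1 / 2) → MemLp f p (volume.restrict U) →
    LinearIndependent ℝ v → MeasurableSet A → MeasurableSet A₁ →
    ∫⁻ ξ in productSet v A A₁, ‖ext U f ξ‖ₑ ^ 2 ≤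
      C * volume (productSet v A A₁) ^ (1 - 2 / q) * eLpNorm f p (volume.restrict U) ^ 2

/-- Weights in all orthonormal frames, for all exponents of the conjecture. -/
def AllFramesWeights : Prop :=
  ∀ (r : ℝ) (p : ℝ≥0∞), 1 ≤ r → r < 3 → 6 < p → ∃ C : ℝ≥0,
    ∀ (U : Set (E 2)) (f : E 2 → ℂ) (e : OrthonormalBasis (Fin 3) ℝ (E 3))
    (u : ℝ × ℝ → ℝ≥0∞) (w : ℝ → ℝ≥0∞), MeasurableSet U → U ⊆ ball 0 (1 / 2) →
    MemLp f p (volume.restrict U) → Measurable u → Measurable w →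
    ∫⁻ ξ, u (⟪e 0, ξ⟫, ⟪e 1, ξ⟫) * w ⟪e 2, ξ⟫ * ‖ext U f ξ‖ₑ ^ 2 ≤
      C * (∫⁻ a, u a ^ r) ^ (1 / r) * (∫⁻ t, w t ^ r) ^ (1 / r) *
        eLpNorm f p (volume.restrict U) ^ 2

/-- Sets in frames whose third direction is nowhere tangential. -/
def TransversalFrames : Prop :=
  ∀ (q κ : ℝ) (p : ℝ≥0∞), 3 < q → q < 4 → 0 < κ → ENNReal.ofReal (2 * q / (q - 1)) < p →
    ∃ C : ℝ≥0, ∀ (U : Set (E 2)) (f : E 2 → ℂ) (v : Fin 3 → E 3) (A : Set (ℝ × ℝ))
    (A₁ : Set ℝ), MeasurableSet U → U ⊆ ball 0 (1 / 2) → MemLp f p (volume.restrict U) →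
    LinearIndependent ℝ v → (∀ x ∈ U, κ * ‖v 2‖ ≤ |⟪v 2, normal x⟫|) →
    MeasurableSet A → MeasurableSet A₁ →
    ∫⁻ ξ in productSet v A A₁, ‖ext U f ξ‖ₑ ^ 2 ≤
      C * volume (productSet v A A₁) ^ (1 - 2 / q) * eLpNorm f p (volume.restrict U) ^ 2

/-- Weights in orthonormal frames whose third direction is nowhere tangential. -/
def TransversalWeights : Prop :=
  ∀ r κ : ℝ, 1 ≤ r → r < 3 → 0 < κ → ∃ C : ℝ≥0,
    ∀ (U : Set (E 2)) (f : E 2 → ℂ) (e : OrthonormalBasis (Fin 3) ℝ (E 3))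
    (u : ℝ × ℝ → ℝ≥0∞) (w : ℝ → ℝ≥0∞), MeasurableSet U → U ⊆ ball 0 (1 / 2) →
    MemLp f 3 (volume.restrict U) → (∀ x ∈ U, κ ≤ |⟪e 2, normal x⟫|) →
    Measurable u → Measurable w →
    ∫⁻ ξ, u (⟪e 0, ξ⟫, ⟪e 1, ξ⟫) * w ⟪e 2, ξ⟫ * ‖ext U f ξ‖ₑ ^ 2 ≤
      C * (∫⁻ a, u a ^ r) ^ (1 / r) * (∫⁻ t, w t ^ r) ^ (1 / r) *
        eLpNorm f 3 (volume.restrict U) ^ 2

/-- Planar sets moving with constant velocity, uniformly in the velocity and with decay. -/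
def MovingSets : Prop :=
  ∀ (q : ℝ) (p : ℝ≥0∞), 3 < q → q < 4 → ENNReal.ofReal (2 * q / (q - 1)) < p → ∃ C : ℝ≥0,
    ∀ (U : Set (E 2)) (f : E 2 → ℂ) (w : E 2) (A : Set (ℝ × ℝ)) (A₁ : Set ℝ),
    MeasurableSet U → U ⊆ ball 0 (1 / 2) → MemLp f p (volume.restrict U) →
    MeasurableSet A → MeasurableSet A₁ →
    ∫⁻ ξ in movingSet w A A₁, ‖ext U f ξ‖ₑ ^ 2 ≤
      C * (volume A * volume A₁ / ENNReal.ofReal (1 + ‖w‖)) ^ (1 - 2 / q) *
        eLpNorm f p (volume.restrict U) ^ 2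

theorem normal_eq (x : E 2) : Pool.Agent.J6H73.TPO.No x = normal x := by
  ext i
  have h0 : Pool.Agent.R412.RT.Nn x (0 : Fin 3) = -2 * x 0 := Pool.Agent.R412.RT.Nn_cast x 0
  have h1 : Pool.Agent.R412.RT.Nn x (1 : Fin 3) = -2 * x 1 := Pool.Agent.R412.RT.Nn_cast x 1
  have h2 : Pool.Agent.R412.RT.Nn x (2 : Fin 3) = 1 := Pool.Agent.R412.RT.Nn_last x
  fin_cases i
  · exact h0
  · exact h1
  · exact h2

/-- **Theorem.** The extension conjecture for the paraboloid in `ℝ³` tested on planar × linear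
products in all linear frames. -/
theorem result : AllFrames ∧ AllFramesWeights ∧ TransversalFrames ∧ TransversalWeights ∧
    MovingSets := by
  refine ⟨?_, ?_, ?_, ?_, ?_⟩
  · intro q p hq3 hq4 hp
    exact Pool.Agent.J6H73.TPZ.allFrames q hq3 hq4 p hp
  · intro r p hr hr3 hp
    exact Pool.Agent.J6H73.TPZ.weightsAll r hr hr3 p hp
  · intro q κ p hq3 hq4 hκ hp
    obtain ⟨C, hC⟩ := Pool.Agent.J6H73.TPZ.transversal q hq3 hq4 p hp κ hκ
    refine ⟨C, fun U f v A A₁ hU hUb hf hv hT hA hA₁ => ?_⟩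
    exact hC U f v A A₁ hU hUb hf hv (fun x hx => by rw [normal_eq]; exact hT x hx) hA hA₁
  · intro r κ hr hr3 hκ
    obtain ⟨C, hC⟩ := Pool.Agent.J6H73.TPZ.weightsT r hr hr3 κ hκ
    refine ⟨C, fun U f e u w hU hUb hf hT hu hw => ?_⟩
    exact hC U f e u w hU hUb hf (fun x hx => by rw [normal_eq]; exact hT x hx) hu hw
  · intro q p hq3 hq4 hp
    exact Pool.Agent.J6H73.TPZ.moving q hq3 hq4 p hp

end Pool.Agent.Results.MP_5ab805_an.TwoPlusOneFrames
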